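import Pool.Agent.helper73.BS.Spec2
import Pool.Agent.helper79.SHL.STP

/-! Project bs (MP_a2a22c_al), row DR: Hirsch length of the stabiliser in an affine action. -/

set_option autoImplicit false

namespace Pool.Agent.BS

open Matrix Module Pool.Agent.UG Pool.Agent.H48SL Pool.Agent.SHL

theorem DR_map {G G' : Type} [Group G] [Group G'] (φ : G →* G') (hφ : Function.Injective φ)
    (N : ℕ) : ∀ H : Subgroup G, Hi N H → Hi N (H.map φ) := by
  induction N with
  | zero => exact fun _ _ => trivial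
  | succ N ih =>
    rintro H ⟨K, L, hKL, hLH, hn, ⟨g, hg, hgk⟩, hK⟩
    refine ⟨K.map φ, L.map φ, Subgroup.map_mono hKL, Subgroup.map_mono hLH, ?_, ?_, ih K hK⟩
    · rintro _ ⟨l, hl, rfl⟩ _ ⟨k, hk, rfl⟩
      refine ⟨l * k * l⁻¹, hn l hl k hk, ?_⟩
      rw [map_mul, map_mul, map_inv]
    · refine ⟨φ g, ⟨g, hg, rfl⟩, ?_⟩
      rintro j hj ⟨k, hk, hkg⟩
      apply hgk j hj
      have h1 : k = g ^ j := hφ (by rw [hkg, map_pow])
      rw [← h1]
      exact hk

theorem DR_down (hHA : SHL.HA_stmt) {G : Type} [Group G] (H : Subgroup G) (N : ℕ) :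
    ∀ d : ℕ, Hi (N + d) H → Hi N H := by
  intro d
  induction d with
  | zero => exact fun h => h
  | succ d ih => exact fun h => ih ((hHA G).2.1 (N + d) H h)

theorem DR_le (hHA : SHL.HA_stmt) {G : Type} [Group G] (H : Subgroup G) (N a : ℕ) (h : N ≤ a)
    (ha : Hi a H) : Hi N H := by
  obtain ⟨d, rfl⟩ := Nat.exists_eq_add_of_le h
  exact DR_down hHA H N d ha

theorem DR_top (hHA : SHL.HA_stmt) {Q : Type} [Group Q] (R : Subgroup Q) (M : ℕ) (hM : Hi M R) :
    Hi M (⊤ : Subgroup R) := by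
  have h := (hHA Q).2.2.2.2.2 R R.subtype (Subgroup.subtype_injective _) M R
    (le_of_eq (Subgroup.range_subtype _).symm) hM
  have h3 : R.comap R.subtype = ⊤ := by
    rw [eq_top_iff]
    intro x _
    exact x.2
  rwa [h3] at h

theorem DR_A (hHA : SHL.HA_stmt) (hHB : SHL.HB_stmt) (hHD : SHL.HD_stmt) {V Q : Type}
    [AddCommGroup V] [Module ℚ V] [FiniteDimensional ℚ V] [Group Q] (ρ : Q →* Module.End ℚ V)
    (u : V) (R : Subgroup Q)
    (hadd : ∀ x ∈ R, ∀ y ∈ R, ρ (x * y) u - u = (ρ x u - u) + (ρ y u - u))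
    (D : Submodule ℚ V) (hD : ∀ x ∈ R, ρ x u - u ∈ D) (M : ℕ) (hM : Hi M R) :
    ∃ a b : ℕ, a + b = M ∧ b ≤ finrank ℚ D ∧ Hi a (R ⊓ stR ρ u) := by
  have h2 : Hi M (⊤ : Subgroup R) := DR_top hHA R M hM
  let F : R →* Multiplicative V :=
    { toFun := fun x => Multiplicative.ofAdd (ρ (x : Q) u - u)
      map_one' := by
        show Multiplicative.ofAdd (ρ ((1 : R) : Q) u - u) = Multiplicative.ofAdd 0
        rw [Subgroup.coe_one, map_one, Module.End.one_apply, sub_self]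
      map_mul' := by
        intro x y
        show Multiplicative.ofAdd (ρ ((x * y : R) : Q) u - u) =
          Multiplicative.ofAdd ((ρ (x : Q) u - u) + (ρ (y : Q) u - u))
        rw [Subgroup.coe_mul, hadd x x.2 y y.2] }
  obtain ⟨a, b, hab, ha, hb⟩ := hHB R (Multiplicative V) F M ⊤ h2
  refine ⟨a, b, hab, ?_, ?_⟩
  · have key := hHD (Multiplicative V) V ((⊤ : Subgroup R).map F)
      (fun x => Multiplicative.toAdd x) ?_ ?_ b hb
    · refine key.trans (Submodule.finrank_mono (Submodule.span_le.2 ?_))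
      rintro _ ⟨_, ⟨x, _, rfl⟩, rfl⟩
      exact hD x x.2
    · intro x _ y _
      rfl
    · intro x _ hx
      refine ⟨1, one_pos, ?_⟩
      rw [pow_one]
      exact hx
  · have h4 := DR_map R.subtype (Subgroup.subtype_injective _) a _ ha
    refine (hHA Q).1 a _ _ ?_ h4
    rintro _ ⟨x, hx, rfl⟩
    refine ⟨x.2, ?_⟩
    have h5 : F x = 1 := MonoidHom.mem_ker.1 hx.2
    exact sub_eq_zero.1 h5

/-- the elements which are trivial on `L` -/
def DR_Q {V Q : Type} [AddCommGroup V] [Module ℚ V] [Group Q] (ρ : Q →* Module.End ℚ V)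
    (L : Submodule ℚ V) : Subgroup Q where
  carrier := {g | ∀ w ∈ L, ρ g w = w}
  one_mem' := fun w _ => by
    rw [map_one]
    rfl
  mul_mem' := fun {a b} ha hb w hw => by
    rw [map_mul, Module.End.mul_apply, hb w hw, ha w hw]
  inv_mem' := fun {a} ha w hw => by
    have h1 : ρ a⁻¹ (ρ a w) = w := by
      rw [← Module.End.mul_apply, ← map_mul, inv_mul_cancel, map_one]
      rfl
    rwa [ha w hw] at h1

theorem DR_memQ {V Q : Type} [AddCommGroup V] [Module ℚ V] [Group Q] {ρ : Q →* Module.End ℚ V}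
    {L : Submodule ℚ V} {g : Q} : g ∈ DR_Q ρ L ↔ ∀ w ∈ L, ρ g w = w := Iff.rfl

theorem DR_lam {V Q : Type} [AddCommGroup V] [Module ℚ V] [Group Q] (ρ : Q →* Module.End ℚ V)
    (L : Submodule ℚ V) (hL : ∀ g, ∀ w ∈ L, ρ g w ∈ L) :
    ∃ lam : Q →* Module.End ℚ L, ∀ (g : Q) (w : L), ((lam g w : L) : V) = ρ g w := by
  refine ⟨{ toFun := fun g => (ρ g).restrict (hL g), map_one' := ?_, map_mul' := ?_ },
    fun g w => rfl⟩
  · ext w
    show ρ (1 : Q) (w : V) = w
    rw [map_one]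
    rfl
  · intro g h
    ext w
    show ρ (g * h) (w : V) = ρ g (ρ h w)
    rw [map_mul]
    rfl

theorem DR_mu {V Q : Type} [AddCommGroup V] [Module ℚ V] [Group Q] (ρ : Q →* Module.End ℚ V)
    (L : Submodule ℚ V) (hL : ∀ g, ∀ w ∈ L, ρ g w ∈ L) :
    ∃ mu : Q →* Module.End ℚ (V ⧸ L), ∀ (g : Q) (v : V), mu g (L.mkQ v) = L.mkQ (ρ g v) := by
  refine ⟨{ toFun := fun g => L.mapQ L (ρ g) (hL g), map_one' := ?_, map_mul' := ?_ },
    fun g w => rfl⟩
  · ext v
    show L.mkQ (ρ (1 : Q) v) = L.mkQ v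
    rw [map_one]
    rfl
  · intro g h
    ext v
    show L.mkQ (ρ (g * h) v) = L.mkQ (ρ g (ρ h v))
    rw [map_mul]
    rfl

/-- the torus step -/
theorem DR_T (hHA : SHL.HA_stmt) (hHB : SHL.HB_stmt) (hTOR : SHL.TOR_stmt) {V Q : Type}
    [AddCommGroup V] [Module ℚ V] [FiniteDimensional ℚ V] [Group Q] (ρ : Q →* Module.End ℚ V)
    (hint : ∀ g, IsIntegral ℤ (ρ g)) (L : Submodule ℚ V) (hL0 : L ≠ ⊥)
    (hL : ∀ g, ∀ w ∈ L, ρ g w ∈ L) (hcomm : ∀ g h, ∀ w ∈ L, ρ (g * h) w = ρ (h * g) w)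
    (M : ℕ) (hM : Hi M (⊤ : Subgroup Q)) :
    ∃ (S : Submodule ℚ V) (a c : ℕ), S ≤ L ∧ S ≠ ⊥ ∧ a + c = M ∧ c + 1 ≤ finrank ℚ S ∧
      Hi a (DR_Q ρ S) := by
  classical
  have hex : ∃ d : ℕ, ∃ S : Submodule ℚ V, S ≤ L ∧ S ≠ ⊥ ∧ (∀ g, ∀ w ∈ S, ρ g w ∈ S) ∧
      finrank ℚ S = d := ⟨_, L, le_refl L, hL0, hL, rfl⟩
  obtain ⟨S, hSL, hS0, hS, hSd⟩ := Nat.find_spec hex
  have hmin : ∀ W : Submodule ℚ V, W ≤ S → (∀ g, ∀ w ∈ W, ρ g w ∈ W) → W = ⊥ ∨ W = S := by
    intro W hW hWs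
    by_cases hW0 : W = ⊥
    · exact Or.inl hW0
    · right
      refine Submodule.eq_of_le_of_finrank_le hW ?_
      rw [hSd]
      exact Nat.find_min' hex ⟨W, hW.trans hSL, hW0, hWs, rfl⟩
  obtain ⟨lam, hlam⟩ := DR_lam ρ S hS
  obtain ⟨a, c, hac, ha, hc⟩ := hHB Q (Module.End ℚ S)ˣ lam.toHomUnits M ⊤ hM
  have hSnt : Nontrivial S := Submodule.nontrivial_iff_ne_bot.2 hS0
  refine ⟨S, a, c, hSL, hS0, hac, ?_, ?_⟩
  · have hc' := STP_range hHA lam.toHomUnits c _ hc
    have h3 := hTOR ℚ 1 inferInstance (by rw [finrank_self]) S lam.toHomUnits.range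
      ((Units.coeHom (Module.End ℚ S)).comp lam.toHomUnits.range.subtype) ?_ ?_ ?_ ?_ c hc'
    · rwa [one_mul] at h3
    · intro u v huv
      apply Subtype.ext
      exact Units.ext huv
    · rintro ⟨_, g, rfl⟩ ⟨_, h, rfl⟩
      show lam g * lam h = lam h * lam g
      rw [← map_mul, ← map_mul]
      ext w
      rw [hlam, hlam]
      exact hcomm g h w (hSL w.2)
    · intro W hW
      have hW' : ∀ g, ∀ w ∈ W.map S.subtype, ρ g w ∈ W.map S.subtype := by
        rintro g _ ⟨w, hw, rfl⟩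
        refine ⟨lam g w, hW ⟨lam.toHomUnits g, g, rfl⟩ w hw, ?_⟩
        exact hlam g w
      rcases hmin (W.map S.subtype) (Submodule.map_subtype_le S W) hW' with h | h
      · left
        rw [eq_bot_iff]
        intro w hw
        have hw2 : (w : V) ∈ W.map S.subtype := ⟨w, hw, rfl⟩
        rw [h, Submodule.mem_bot] at hw2
        exact (Submodule.mem_bot ℚ).2 (Subtype.ext hw2)
      · right
        rw [eq_top_iff]
        intro w _
        have hw : (w : V) ∈ W.map S.subtype := by rw [h]; exact w.2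
        obtain ⟨w', hw', hww'⟩ := hw
        have : w' = w := Subtype.ext hww'
        rwa [← this]
    · rintro ⟨_, g, rfl⟩
      exact STP_int_sub S.subtype (Submodule.subtype_injective S) (lam g) (ρ g)
        (fun v => hlam g v) (hint g)
  · refine (hHA Q).1 a _ _ ?_ ha
    intro g hg w hw
    have hy2 : lam.toHomUnits g = 1 := MonoidHom.mem_ker.1 hg.2
    have hy4 : lam g = 1 := congrArg Units.val hy2
    have h5 := hlam g ⟨w, hw⟩
    rw [hy4] at h5
    exact h5.symm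

theorem DR_clear {V : Type} [AddCommGroup V] [Module ℚ V] (A : AddSubgroup V) (x : V)
    (hx : x ∈ Submodule.span ℚ (A : Set V)) : ∃ m : ℕ, 1 ≤ m ∧ m • x ∈ A := by
  induction hx using Submodule.span_induction with
  | mem x hx => exact ⟨1, le_refl 1, by rw [one_smul]; exact hx⟩
  | zero => exact ⟨1, le_refl 1, by rw [smul_zero]; exact A.zero_mem⟩
  | add x y _ _ hx hy =>
    obtain ⟨m, hm, hmx⟩ := hx
    obtain ⟨k, hk, hky⟩ := hy
    refine ⟨m * k, Nat.mul_pos hm hk, ?_⟩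
    rw [smul_add]
    refine A.add_mem ?_ ?_
    · rw [mul_comm, mul_smul]
      exact A.nsmul_mem hmx k
    · rw [mul_smul]
      exact A.nsmul_mem hky m
  | smul c x _ hx =>
    obtain ⟨m, hm, hmx⟩ := hx
    refine ⟨c.den * m, Nat.mul_pos c.den_pos hm, ?_⟩
    have h1 : (c.den * m) • (c • x) = c.num • (m • x) := by
      have h2 : ((c.den : ℚ)) * c = (c.num : ℚ) := Rat.den_mul_eq_num c
      rw [← Nat.cast_smul_eq_nsmul ℚ (c.den * m), ← Nat.cast_smul_eq_nsmul ℚ m,
        ← Int.cast_smul_eq_zsmul ℚ c.num, smul_smul, smul_smul, ← h2]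
      push_cast
      ring_nf
    rw [h1]
    exact A.zsmul_mem hmx c.num

theorem DR (hHA : SHL.HA_stmt) (hHB : SHL.HB_stmt) (hHD : SHL.HD_stmt) (hTOR : SHL.TOR_stmt)
    (hHP : HP_stmt) (hLC : LC_stmt) : DR_stmt := by
  classical
  intro V _ _ _ Q _ ρ hint L u hL hcomm hdich hu N hN
  have hfmul : ∀ g h : Q, ρ (g * h) u - u = ρ g (ρ h u - u) + (ρ g u - u) := by
    intro g h
    rw [map_mul, Module.End.mul_apply, map_sub]
    abel
  have hinv : ∀ (g : Q) (v : V), ρ g (ρ g⁻¹ v) = v := by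
    intro g v
    rw [← Module.End.mul_apply, ← map_mul, mul_inv_cancel, map_one]
    rfl
  have hinv' : ∀ (g : Q) (v : V), ρ g⁻¹ (ρ g v) = v := by
    intro g v
    rw [← Module.End.mul_apply, ← map_mul, inv_mul_cancel, map_one]
    rfl
  have hadd : ∀ x ∈ DR_Q ρ L, ∀ y ∈ DR_Q ρ L,
      ρ (x * y) u - u = (ρ x u - u) + (ρ y u - u) := by
    intro x hx y _
    rw [hfmul, hx _ (hu y)]
    abel
  by_cases hcase : ∀ g : Q, g ∈ DR_Q ρ L
  · -- case 1
    have hN' : Hi (N + finrank ℚ L) (DR_Q ρ L) := (hHA Q).1 _ _ _ (fun g _ => hcase g) hN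
    obtain ⟨a, b, hab, hb, ha⟩ := DR_A hHA hHB hHD ρ u (DR_Q ρ L) hadd L (fun x _ => hu x) _ hN'
    have h1 : Hi a (stR ρ u) := (hHA Q).1 a _ _ inf_le_right ha
    exact DR_le hHA _ N a (by omega) h1
  push Not at hcase
  obtain ⟨g₀, hg₀⟩ := hcase
  -- the additive subgroup
  let A : AddSubgroup V :=
    { carrier := {x | ∃ q ∈ DR_Q ρ L, ρ q u - u = x}
      zero_mem' := ⟨1, (DR_Q ρ L).one_mem, by rw [map_one, Module.End.one_apply, sub_self]⟩
      add_mem' := by
        rintro x y ⟨p, hp, rfl⟩ ⟨q, hq, rfl⟩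
        exact ⟨p * q, (DR_Q ρ L).mul_mem hp hq, hadd p hp q hq⟩
      neg_mem' := by
        rintro x ⟨p, hp, rfl⟩
        refine ⟨p⁻¹, (DR_Q ρ L).inv_mem hp, ?_⟩
        have h1 := hadd p hp p⁻¹ ((DR_Q ρ L).inv_mem hp)
        rw [mul_inv_cancel, map_one, Module.End.one_apply, sub_self] at h1
        exact (neg_eq_of_add_eq_zero_right h1.symm).symm }
  have hA : ∀ x, x ∈ A ↔ ∃ q ∈ DR_Q ρ L, ρ q u - u = x := fun x => Iff.rfl
  have hAL : ∀ x ∈ A, x ∈ L := by
    rintro x ⟨q, _, rfl⟩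
    exact hu q
  have hAs : ∀ (g : Q), ∀ x ∈ A, ρ g x ∈ A := by
    rintro g x ⟨q, hq, rfl⟩
    refine ⟨g * q * g⁻¹, ?_, ?_⟩
    · intro w hw
      rw [map_mul, map_mul, Module.End.mul_apply, Module.End.mul_apply, hq _ (hL g⁻¹ w hw), hinv]
    · have h1 : ρ q (ρ g⁻¹ u) = (ρ q u - u) + ρ g⁻¹ u := by
        have h2 := hq _ (hu g⁻¹)
        rw [map_sub] at h2
        have h3 : ρ q (ρ g⁻¹ u) = (ρ g⁻¹ u - u) + ρ q u := by rw [← h2]; abel
        rw [h3]
        abel
      rw [map_mul, map_mul, Module.End.mul_apply, Module.End.mul_apply, h1, map_add, hinv]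
      abel
  let D : Submodule ℚ V := Submodule.span ℚ (A : Set V)
  have hDL : D ≤ L := Submodule.span_le.2 hAL
  have hDs : ∀ (g : Q), ∀ x ∈ D, ρ g x ∈ D := by
    intro g x hx
    have h1 : D ≤ D.comap (ρ g) := by
      refine Submodule.span_le.2 ?_
      intro y hy
      exact Submodule.subset_span (hAs g y hy)
    exact h1 hx
  have hAD : ∀ x ∈ DR_Q ρ L, ρ x u - u ∈ D := fun x hx => Submodule.subset_span ⟨x, hx, rfl⟩
  by_cases hD : D = L
  · -- case 2b
    obtain ⟨lam, hlam⟩ := DR_lam ρ L hL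
    obtain ⟨a, b, hab, ha, hb⟩ := hHB Q (Module.End ℚ L)ˣ lam.toHomUnits _ ⊤ hN
    have hker : ∀ g, g ∈ lam.toHomUnits.ker ↔ g ∈ DR_Q ρ L := by
      intro g
      constructor
      · intro hg w hw
        have hy2 : lam.toHomUnits g = 1 := MonoidHom.mem_ker.1 hg
        have hy4 : lam g = 1 := congrArg Units.val hy2
        have h5 := hlam g ⟨w, hw⟩
        rw [hy4] at h5
        exact h5.symm
      · intro hg
        rw [MonoidHom.mem_ker]
        apply Units.ext
        show lam g = 1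
        ext w
        rw [hlam]
        exact hg w w.2
    have ha' : Hi a (DR_Q ρ L) := by
      refine (hHA Q).1 a _ _ ?_ ha
      intro g hg
      exact (hker g).1 hg.2
    obtain ⟨a1, b1, hab1, hb1, ha1⟩ := DR_A hHA hHB hHD ρ u (DR_Q ρ L) hadd L
      (fun x _ => hu x) _ ha'
    have hpow : ∀ x ∈ (⊤ : Subgroup Q).map lam.toHomUnits, ∃ j : ℕ, 0 < j ∧
        x ^ j ∈ (stR ρ u).map lam.toHomUnits := by
      rintro _ ⟨g, _, rfl⟩
      have hxD : ρ g u - u ∈ D := by rw [hD]; exact hu g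
      obtain ⟨m, hm, hmx⟩ := DR_clear A _ hxD
      obtain ⟨j, hj, hjs⟩ := hLC V (ρ g) (ρ g⁻¹)
        (by rw [← map_mul, mul_inv_cancel, map_one]) (by rw [← map_mul, inv_mul_cancel, map_one])
        (hint g) (hint g⁻¹) A (hAs g) (hAs g⁻¹) (ρ g u - u) m hm hmx
      have hsum : ∀ i : ℕ, ρ (g ^ i) u - u = ∑ l ∈ Finset.range i, ((ρ g) ^ l) (ρ g u - u) := by
        intro i
        induction i with
        | zero => rw [pow_zero, map_one, Module.End.one_apply, sub_self, Finset.sum_range_zero]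
        | succ i ih =>
          rw [pow_succ, hfmul, ih, Finset.sum_range_succ, map_pow]
          abel
      rw [← hsum j] at hjs
      obtain ⟨q, hq, hqe⟩ := hjs
      have h6 : ρ q u = ρ (g ^ j) u := sub_left_inj.1 hqe
      refine ⟨j, hj, q⁻¹ * g ^ j, ?_, ?_⟩
      · show ρ (q⁻¹ * g ^ j) u = u
        rw [map_mul, Module.End.mul_apply, ← h6, hinv']
      · have h7 : lam.toHomUnits q⁻¹ = 1 :=
          MonoidHom.mem_ker.1 ((hker q⁻¹).2 ((DR_Q ρ L).inv_mem hq))
        rw [map_mul, h7, one_mul, map_pow]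
    have hb2 : Hi b ((stR ρ u).map lam.toHomUnits) :=
      (hHA _).1 b _ _ inf_le_left ((hHP (Module.End ℚ L)ˣ).1 b _ _ hpow hb)
    have ha2 : Hi a1 (stR ρ u ⊓ lam.toHomUnits.ker) := by
      refine (hHA Q).1 a1 _ _ ?_ ha1
      intro g hg
      exact ⟨hg.2, (hker g).2 hg.1⟩
    have h8 := (hHP Q).2 (Module.End ℚ L)ˣ lam.toHomUnits a1 b (stR ρ u) ha2 hb2
    exact DR_le hHA _ N (a1 + b) (by omega) h8
  · -- case 2a
    obtain ⟨mu, hmu⟩ := DR_mu ρ D hDs
    have hmint : ∀ g, IsIntegral ℤ (mu g) := fun g =>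
      STP_int_quot D.mkQ (Submodule.mkQ_surjective D) (ρ g) (mu g) (fun v => (hmu g v).symm) (hint g)
    have hL'0 : L.map D.mkQ ≠ ⊥ := by
      intro h
      apply hD
      refine le_antisymm hDL ?_
      intro w hw
      have h1 : D.mkQ w ∈ L.map D.mkQ := ⟨w, hw, rfl⟩
      rw [h, Submodule.mem_bot] at h1
      exact (Submodule.Quotient.mk_eq_zero D).1 h1
    obtain ⟨S, a, c, hSL, hS0, hac, hcS, ha⟩ := DR_T hHA hHB hTOR mu hmint (L.map D.mkQ) hL'0
      (by
        rintro g _ ⟨w, hw, rfl⟩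
        rw [hmu]
        exact ⟨_, hL g w hw, rfl⟩)
      (by
        rintro g h _ ⟨w, hw, rfl⟩
        rw [hmu, hmu, hcomm g h w hw]) _ hN
    have hdim : finrank ℚ S + finrank ℚ D ≤ finrank ℚ L := by
      have h1 : finrank ℚ S ≤ finrank ℚ (L.map D.mkQ) := Submodule.finrank_mono hSL
      have h2 : finrank ℚ (L.map D.mkQ) + finrank ℚ (D.mkQ.domRestrict L).ker = finrank ℚ L := by
        have h3 := (D.mkQ.domRestrict L).finrank_range_add_finrank_ker
        rwa [LinearMap.range_domRestrict] at h3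
      have h4 : finrank ℚ D ≤ finrank ℚ (D.mkQ.domRestrict L).ker := by
        have h5 : D ≤ (D.mkQ.domRestrict L).ker.map L.subtype := by
          intro x hx
          refine ⟨⟨x, hDL hx⟩, ?_, rfl⟩
          show D.mkQ x = 0
          exact (Submodule.Quotient.mk_eq_zero D).2 hx
        exact (Submodule.finrank_mono h5).trans (Submodule.finrank_map_le _ _)
      omega
    have hQ' : DR_Q mu S ≤ DR_Q ρ L := by
      intro g hg
      rcases hdich g with h | h
      · exact h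
      · exfalso
        apply hS0
        rw [eq_bot_iff]
        intro s hs
        obtain ⟨l, hl, hls⟩ := hSL hs
        have h1 := hg s hs
        rw [← hls, hmu] at h1
        have h2 : ρ g l - l ∈ D := (Submodule.Quotient.eq D).1 h1
        -- surjectivity on D
        let T : D →ₗ[ℚ] D := (ρ g - 1).restrict (p := D) (q := D) (fun x hx => by
          rw [LinearMap.sub_apply]
          exact D.sub_mem (hDs g x hx) hx)
        have hT : ∀ x : D, ((T x : D) : V) = ρ g x - x := fun x => rfl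
        have hTi : Function.Injective T := by
          rw [← LinearMap.ker_eq_bot, eq_bot_iff]
          intro x hx
          have h3 : T x = 0 := hx
          have h4 : ρ g (x : V) - x = 0 := by
            rw [← hT, h3]
            rfl
          exact (Submodule.mem_bot ℚ).2 (Subtype.ext (h x (hDL x.2) (sub_eq_zero.1 h4)))
        have hTs : Function.Surjective T := LinearMap.surjective_of_injective hTi
        obtain ⟨d, hd⟩ := hTs ⟨_, h2⟩
        have h5 : ρ g (d : V) - d = ρ g l - l := by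
          rw [← hT, hd]
        have h6 : ρ g (l - d) = l - d := by
          rw [map_sub]
          have h7 : ρ g (d : V) = ρ g l - l + d := by rw [← h5]; abel
          rw [h7]
          abel
        have h8 : l - d = 0 := h _ (L.sub_mem hl (hDL d.2)) h6
        have h9 : l = d := sub_eq_zero.1 h8
        rw [Submodule.mem_bot, ← hls, h9]
        exact (Submodule.Quotient.mk_eq_zero D).2 d.2
    have ha' : Hi a (DR_Q ρ L) := (hHA Q).1 a _ _ hQ' ha
    obtain ⟨a1, b1, hab1, hb1, ha1⟩ := DR_A hHA hHB hHD ρ u (DR_Q ρ L) hadd D hAD _ ha'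
    have h1 : Hi a1 (stR ρ u) := (hHA Q).1 a1 _ _ inf_le_right ha1
    exact DR_le hHA _ N a1 (by omega) h1

end Pool.Agent.BS
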